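import Pool.Agent.helper23.CU.Spec

/-! Module cu:REV (helper98): reversibility of the heat bath. -/

set_option autoImplicit false

open Finset Filter Topology

namespace CU

section

variable {d n : ℕ} [NeZero n]

theorem REV_W (β : ℝ) (σ : Conf d n) : 0 < W β σ := Real.exp_pos _

/-- flip at `x` -/
def REV_tau (x : Site d n) (σ : Conf d n) : Conf d n := Function.update σ x (!σ x)

theorem REV_inv (x : Site d n) : Function.Involutive (REV_tau (d := d) (n := n) x) := by
  intro σ
  unfold REV_tau
  rw [Function.update_self, Function.update_idem, Bool.not_not, Function.update_eq_self]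

theorem REV_pair (x : Site d n) (h : Conf d n → ℝ) : 2 * ∑ σ, h σ =
    ∑ σ, (h (Function.update σ x true) + h (Function.update σ x false)) := by
  have e : ∑ σ, h (REV_tau x σ) = ∑ σ, h σ :=
    Equiv.sum_comp (REV_inv x).toPerm h
  rw [two_mul]
  nth_rewrite 2 [← e]
  rw [← Finset.sum_add_distrib]
  refine Finset.sum_congr rfl fun σ _ => ?_
  unfold REV_tau
  cases hσ : σ x
  · have h1 : Function.update σ x false = σ := by rw [← hσ, Function.update_eq_self]
    rw [h1, add_comm]
    rfl
  · have h1 : Function.update σ x true = σ := by rw [← hσ, Function.update_eq_self]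
    rw [h1]
    rfl

theorem REV_Kx (β : ℝ) (x : Site d n) (f g : Conf d n → ℝ) :
    ∑ σ, W β σ * (f σ * Kx β x g σ) = ∑ σ, W β σ * (Kx β x f σ * g σ) := by
  have h1 := REV_pair x fun σ => W β σ * (f σ * Kx β x g σ)
  have h2 := REV_pair x fun σ => W β σ * (Kx β x f σ * g σ)
  have e : ∑ σ, (W β (Function.update σ x true) * (f (Function.update σ x true) *
        Kx β x g (Function.update σ x true)) + W β (Function.update σ x false) *
        (f (Function.update σ x false) * Kx β x g (Function.update σ x false))) =
      ∑ σ, (W β (Function.update σ x true) * (Kx β x f (Function.update σ x true) *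
        g (Function.update σ x true)) + W β (Function.update σ x false) *
        (Kx β x f (Function.update σ x false) * g (Function.update σ x false))) := by
    refine Finset.sum_congr rfl fun σ _ => ?_
    unfold Kx
    simp only [Function.update_idem]
    have p1 := REV_W β (Function.update σ x true)
    have p2 := REV_W β (Function.update σ x false)
    have p3 : W β (Function.update σ x true) + W β (Function.update σ x false) ≠ 0 := by positivity
    field_simp
  linarith

theorem REV_step (β : ℝ) (f g : Conf d n → ℝ) :
    Ex β (fun σ : Conf d n => f σ * Pf β g σ) = Ex β (fun σ : Conf d n => Pf β f σ * g σ) := by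
  unfold Ex
  congr 1
  unfold Pf
  have e1 : ∀ σ : Conf d n, W β σ * (f σ * ((∑ x : Site d n, Kx β x g σ) /
      (Fintype.card (Site d n) : ℝ))) = (∑ x : Site d n, W β σ * (f σ * Kx β x g σ)) /
      (Fintype.card (Site d n) : ℝ) := by
    intro σ
    rw [← Finset.mul_sum, ← Finset.mul_sum]
    ring
  have e2 : ∀ σ : Conf d n, W β σ * ((∑ x : Site d n, Kx β x f σ) /
      (Fintype.card (Site d n) : ℝ) * g σ) = (∑ x : Site d n, W β σ * (Kx β x f σ * g σ)) /
      (Fintype.card (Site d n) : ℝ) := by
    intro σ
    rw [← Finset.mul_sum, ← Finset.sum_mul]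
    ring
  rw [Finset.sum_congr rfl fun σ _ => e1 σ, Finset.sum_congr rfl fun σ _ => e2 σ,
    ← Finset.sum_div, ← Finset.sum_div]
  congr 1
  rw [Finset.sum_comm, Finset.sum_comm (s := (univ : Finset (Conf d n)))]
  exact Finset.sum_congr rfl fun x _ => REV_Kx β x f g

theorem REV_const (β : ℝ) (c : ℝ) : Pf β (fun _ : Conf d n => c) = fun _ => c := by
  funext σ
  unfold Pf
  have e : ∀ x : Site d n, Kx β x (fun _ : Conf d n => c) σ = c := by
    intro x
    unfold Kx
    have p1 := REV_W β (Function.update σ x true)
    have p2 := REV_W β (Function.update σ x false)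
    have p3 : W β (Function.update σ x true) + W β (Function.update σ x false) ≠ 0 := by positivity
    rw [← add_mul, mul_div_assoc, mul_comm, div_mul_cancel₀ _ p3]
  rw [Finset.sum_congr rfl fun x _ => e x, Finset.sum_const, Finset.card_univ, nsmul_eq_mul]
  have : (Fintype.card (Site d n) : ℝ) ≠ 0 := by
    exact_mod_cast Fintype.card_ne_zero
  rw [mul_comm, mul_div_assoc, div_self this, mul_one]

end

theorem REV : REV_stmt := by
  intro d n _ β f g t
  constructor
  · induction t generalizing f g with
    | zero => rfl
    | succ t ih =>
      rw [Function.iterate_succ_apply', Function.iterate_succ_apply, REV_step, ih]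
  · intro c
    induction t with
    | zero => rfl
    | succ t ih => rw [Function.iterate_succ_apply, REV_const, ih]

end CU
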